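import Pool.Agent.Q227.OR.Final

/-!
# The positive theory of one-step rewriting can be undecidable

There are a finite signature `S` with a constant and a finite rewrite system `R` over `S` such that
no algorithm decides, given a positive sentence, whether it holds in the structure of the ground
terms over `S` with one-step rewriting by `R`. This is so even for the sentences `∀ x ∀ y ψ` in
which `ψ` is positive and has no universal quantifier.
-/

set_option autoImplicit false

namespace Pool.Agent.Results.MP_342291_lc.PositiveUndecidable

open Pool.Agent.Q227.OR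

theorem result : ∃ (S : Sig) (R : Set (Tm S ℕ × Tm S ℕ)), R.Finite ∧ (∀ ρ ∈ R, RuleOk ρ) ∧
    ¬ DecidableOn R (fun _ => True) ∧ ¬ DecidableOn R PF.AllAllEx := by
  obtain ⟨S, R, h1, h2, h3⟩ := main_result
  refine ⟨S, R, h1, h2, ?_, h3⟩
  rintro ⟨f, hf, h⟩
  exact h3 ⟨f, hf, fun φ h1 _ => h φ h1 trivial⟩

end Pool.Agent.Results.MP_342291_lc.PositiveUndecidable
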